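import Pool.Agent.H902R3.PZ.W3

set_option autoImplicit false

/-!
# Removing all the zeros at `ρ` and `conj ρ`
-/

namespace Pool.Agent.Y861.SelZ

open Finset Pool.Agent.H469R10.HO Pool.Agent.H902R3.I469 Pool.Agent.H902R3.PZ Filter Topology Complex

/-- growth of order two outside a ball extends to the whole plane -/
lemma growth_ext {f : ℂ → ℂ} (hf : Continuous f) (R C : ℝ)
    (h : ∀ s : ℂ, R ≤ ‖s‖ → ‖f s‖ ≤ Real.exp (C * (1 + ‖s‖) ^ 2)) : Gr f := by
  obtain ⟨M, hM⟩ := (isCompact_closedBall (0 : ℂ) R).exists_bound_of_continuousOn hf.continuousOn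
  set M' : ℝ := max M 0 with hM'
  have hM0 : 0 ≤ M' := le_max_right _ _
  have hl0 : 0 ≤ Real.log (1 + M') := Real.log_nonneg (by linarith)
  apply Gr.of
  refine ⟨max C (Real.log (1 + M')), fun s => ?_⟩
  have h1 : (1 : ℝ) ≤ (1 + ‖s‖) ^ 2 := by
    have := norm_nonneg s
    nlinarith
  rcases le_total R ‖s‖ with hs | hs
  · refine (h s hs).trans (Real.exp_le_exp.2 ?_)
    exact mul_le_mul_of_nonneg_right (le_max_left _ _) (by positivity)
  · have h2 : ‖f s‖ ≤ 1 + M' := by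
      have := hM s (by simpa using hs)
      have := le_max_left M 0
      linarith
    calc ‖f s‖ ≤ 1 + M' := h2
      _ = Real.exp (Real.log (1 + M')) := (Real.exp_log (by linarith)).symm
      _ ≤ Real.exp (max C (Real.log (1 + M')) * (1 + ‖s‖) ^ 2) := by
        apply Real.exp_le_exp.2
        calc Real.log (1 + M') = Real.log (1 + M') * 1 := (mul_one _).symm
          _ ≤ Real.log (1 + M') * (1 + ‖s‖) ^ 2 := mul_le_mul_of_nonneg_left h1 hl0
          _ ≤ _ := mul_le_mul_of_nonneg_right (le_max_right _ _) (by positivity)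

lemma factor (f : ℂ → ℂ) (hf : Differentiable ℂ f) (a : ℂ) (ha : f a = 0) :
    ∃ g : ℂ → ℂ, Differentiable ℂ g ∧ ∀ s, f s = (s - a) * g s := by
  refine ⟨dslope f a, ?_, fun s => ?_⟩
  · rw [← differentiableOn_univ, Complex.differentiableOn_dslope Filter.univ_mem]
    exact hf.differentiableOn
  · have := sub_smul_dslope f a s
    rw [ha, sub_zero, smul_eq_mul] at this
    exact this.symm

variable (D : Dat)

lemma dd_diff : Differentiable ℂ D.dd := by unfold Dat.dd; fun_prop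

lemma dd_fac (s : ℂ) : D.dd s = (s - D.rho) * (s - starRingEnd ℂ D.rho) := by
  unfold Dat.dd Dat.rho
  rw [map_add, map_mul, Complex.conj_ofReal, Complex.conj_I, map_div₀, map_one, Complex.conj_ofNat]
  linear_combination ((D.γ : ℂ) ^ 2) * Complex.I_sq

lemma rho_sub_conj : D.rho - starRingEnd ℂ D.rho ≠ 0 := by
  unfold Dat.rho
  rw [map_add, map_mul, Complex.conj_ofReal, Complex.conj_I, map_div₀, map_one, Complex.conj_ofNat]
  have : (1 / 2 + (D.γ : ℂ) * Complex.I) - (1 / 2 + (D.γ : ℂ) * -Complex.I) = ((2 * D.γ : ℝ) : ℂ) * Complex.I := by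
    push_cast; ring
  rw [this]
  apply mul_ne_zero _ Complex.I_ne_zero
  have := D.hγ
  exact_mod_cast (by positivity : (2 * D.γ : ℝ) ≠ 0)

lemma order_dd : analyticOrderAt D.dd D.rho = 1 := by
  have ha : AnalyticAt ℂ D.dd D.rho := (dd_diff D).analyticAt _
  have h := (ha.analyticOrderAt_eq_natCast (n := 1)).2
    ⟨fun s => s - starRingEnd ℂ D.rho, by fun_prop, rho_sub_conj D, by
      filter_upwards with z
      rw [dd_fac, pow_one, smul_eq_mul]⟩
  exact_mod_cast h

/-- one step -/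
lemma step (f : ℂ → ℂ) (hf : Differentiable ℂ f) (hg : Gr f)
    (hc : ∀ s, f (starRingEnd ℂ s) = starRingEnd ℂ (f s)) (h0 : f D.rho = 0) :
    ∃ V : ℂ → ℂ, Differentiable ℂ V ∧ Gr V ∧ (∀ s, V (starRingEnd ℂ s) = starRingEnd ℂ (V s)) ∧
      ∀ s, f s = D.dd s * V s := by
  obtain ⟨Y1, hY1, hZ1⟩ := factor f hf D.rho h0
  have hY1ρ : Y1 (starRingEnd ℂ D.rho) = 0 := by
    have h := hZ1 (starRingEnd ℂ D.rho)
    rw [hc, h0, map_zero] at h
    rcases mul_eq_zero.1 h.symm with h | h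
    · exact absurd (by rw [← neg_sub, h, neg_zero]) (rho_sub_conj D)
    · exact h
  obtain ⟨Y, hY, hZ2⟩ := factor Y1 hY1 _ hY1ρ
  have hfac : ∀ s : ℂ, f s = D.dd s * Y s := by
    intro s
    rw [hZ1 s, hZ2 s, dd_fac]
    ring
  refine ⟨Y, hY, ?_, ?_, hfac⟩
  · obtain ⟨C, hC0, hC⟩ := hg
    refine growth_ext hY.continuous (2 + D.γ + 1) C fun s hs => ?_
    have hγ := D.hγ
    have h1 : 1 ≤ ‖D.dd s‖ := by
      unfold Dat.dd
      have h2 : ‖s‖ - 1 / 2 ≤ ‖s - 1 / 2‖ := by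
        have := norm_sub_norm_le s (1 / 2)
        have h3 : ‖(1 / 2 : ℂ)‖ = 1 / 2 := by norm_num
        rw [h3] at this
        exact this
      have h4 : D.γ + 2 ≤ ‖s - 1 / 2‖ := by linarith
      have h5 : ‖(s - 1 / 2) ^ 2‖ - ‖(D.γ : ℂ) ^ 2‖ ≤ ‖(s - 1 / 2) ^ 2 + (D.γ : ℂ) ^ 2‖ := by
        have := norm_sub_le_norm_add ((s - 1 / 2) ^ 2) ((D.γ : ℂ) ^ 2)
        exact this
      rw [norm_pow, norm_pow, Complex.norm_real, Real.norm_of_nonneg hγ.le] at h5
      nlinarith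
    have h2 := hC s
    rw [hfac s, norm_mul] at h2
    have h3 := norm_nonneg (Y s)
    calc ‖Y s‖ = 1 * ‖Y s‖ := (one_mul _).symm
      _ ≤ ‖D.dd s‖ * ‖Y s‖ := mul_le_mul_of_nonneg_right h1 h3
      _ ≤ _ := h2
  · intro s
    have hc1 : Continuous fun s : ℂ => Y (starRingEnd ℂ s) := hY.continuous.comp Complex.continuous_conj
    have hc2 : Continuous fun s : ℂ => starRingEnd ℂ (Y s) := Complex.continuous_conj.comp hY.continuous
    have h1 : Tendsto (fun s : ℂ => Y (starRingEnd ℂ s)) (𝓝[≠] s) (𝓝 (Y (starRingEnd ℂ s))) :=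
      (hc1.tendsto s).mono_left nhdsWithin_le_nhds
    have h2 : Tendsto (fun s : ℂ => starRingEnd ℂ (Y s)) (𝓝[≠] s) (𝓝 (starRingEnd ℂ (Y s))) :=
      (hc2.tendsto s).mono_left nhdsWithin_le_nhds
    refine tendsto_nhds_unique_of_eventuallyEq h1 h2 ?_
    filter_upwards [D.dd_eventually s] with z hz
    have h3 := hc z
    rw [hfac, hfac, D.dd_conj, map_mul] at h3
    exact mul_left_cancel₀ (by simpa using hz) h3

/-- removing a zero of order `n` -/
theorem exists_V (n : ℕ) : ∀ f : ℂ → ℂ, Differentiable ℂ f → Gr f →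
    (∀ s, f (starRingEnd ℂ s) = starRingEnd ℂ (f s)) → analyticOrderAt f D.rho = n →
    ∃ V : ℂ → ℂ, Differentiable ℂ V ∧ Gr V ∧ (∀ s, V (starRingEnd ℂ s) = starRingEnd ℂ (V s)) ∧
      (∀ s, f s = D.dd s ^ n * V s) ∧ V D.rho ≠ 0 := by
  induction n with
  | zero =>
    intro f hf hg hc ho
    refine ⟨f, hf, hg, hc, fun s => by rw [pow_zero, one_mul], ?_⟩
    exact ((hf.analyticAt D.rho).analyticOrderAt_eq_zero).1 (by exact_mod_cast ho)
  | succ n ih =>
    intro f hf hg hc ho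
    have h0 : f D.rho = 0 := by
      by_contra h
      have h1 := ((hf.analyticAt D.rho).analyticOrderAt_eq_zero).2 h
      rw [ho] at h1
      have h2 : (n + 1 : ℕ) = 0 := by exact_mod_cast h1
      omega
    obtain ⟨g, hg1, hg2, hg3, hg4⟩ := step D f hf hg hc h0
    have hfg : f = D.dd * g := funext hg4
    have ho' : analyticOrderAt g D.rho = n := by
      rw [hfg, analyticOrderAt_mul ((dd_diff D).analyticAt _) (hg1.analyticAt _), order_dd] at ho
      have h2 : (1 : ℕ∞) + analyticOrderAt g D.rho = 1 + (n : ℕ∞) := by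
        rw [ho]; push_cast; ring
      exact ENat.add_right_injective_of_ne_top (by simp) h2
    obtain ⟨V, v1, v2, v3, v4, v5⟩ := ih g hg1 hg2 hg3 ho'
    exact ⟨V, v1, v2, v3, fun s => by rw [hg4, v4, pow_succ]; ring, v5⟩

end Pool.Agent.Y861.SelZ
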