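import Pool.Agent.Y861.SelZ.Eul
import Pool.Agent.Y861.SelZ.Fac

set_option autoImplicit false

/-!
# The functions `ζ ^ r * H ^ e`
-/

namespace Pool.Agent.Y861.SelZ

open Finset Pool.Agent.H469R10.HO Pool.Agent.H902R3.I469 Pool.Agent.H902R3.PZ Filter Topology Complex

/-- a datum together with the function obtained from `(s - 1) ζ(s)` by removing all zeros at `ρ` and
`conj ρ` -/
structure VDat where
  D : Dat
  m : ℕ
  V : ℂ → ℂ
  hd : Differentiable ℂ V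
  hg : Gr V
  hc : ∀ s, V (starRingEnd ℂ s) = starRingEnd ℂ (V s)
  hV : ∀ s, D.Z s = D.dd s ^ m * V s
  hne : V D.rho ≠ 0

namespace VDat

variable (W : VDat)

/-- the inner factor -/
noncomputable def L (s : ℂ) : ℂ := W.D.dd s * W.D.Λ (W.D.zz s) - W.D.kk

/-- `dd * H` -/
noncomputable def M (s : ℂ) : ℂ := W.D.E s * W.L s

lemma M_diff : Differentiable ℂ W.M := W.D.num_diff

lemma L_conj (s : ℂ) : W.L (starRingEnd ℂ s) = starRingEnd ℂ (W.L s) := by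
  unfold L
  rw [W.D.dd_conj, W.D.zz_conj, W.D.hΛc]
  simp only [map_mul, map_sub, Complex.conj_ofReal]

lemma M_conj (s : ℂ) : W.M (starRingEnd ℂ s) = starRingEnd ℂ (W.M s) := by
  unfold M
  rw [W.L_conj, W.D.E_conj, map_mul]

lemma L_one_sub (s : ℂ) : W.L (1 - s) = W.L s := by
  unfold L
  rw [W.D.dd_one_sub, W.D.zz_one_sub, W.D.hΛfe]

lemma M_rho_ne : W.M W.D.rho ≠ 0 := W.D.num_rho_ne

lemma H_eq {s : ℂ} (hd : W.D.dd s ≠ 0) : W.D.H s = W.M s / W.D.dd s := by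
  unfold Dat.H M L
  rw [W.D.Λ'_eq]
  field_simp

lemma Gr_id : Gr (fun s : ℂ => s) := by
  refine ⟨1, zero_le_one, fun s => ?_⟩
  have h1 := Real.add_one_le_exp (1 * (1 + ‖s‖) ^ 2)
  have := norm_nonneg s
  nlinarith

lemma Gr_pow {f : ℂ → ℂ} (hf : Gr f) (n : ℕ) : Gr (fun s => f s ^ n) := by
  induction n with
  | zero => simpa using Gr.const 1
  | succ n ih =>
    have := ih.mul hf
    have e : (fun s => f s ^ (n + 1)) = fun s => f s ^ n * f s := by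
      funext s
      rw [pow_succ]
    rw [e]
    exact this

lemma dd_gr : Gr W.D.dd := by
  have h1 : Gr (fun s : ℂ => (1 : ℂ) * s + (-(1 / 2) : ℂ)) := Gr_id.comp_affine 1 (-(1 / 2))
  have h2 := (Gr_pow h1 2).sub (Gr.const (-(W.D.γ : ℂ) ^ 2))
  convert h2 using 1
  funext s
  unfold Dat.dd
  ring

lemma E_gr : Gr W.D.E := by
  have h1 : Gr (fun s => Complex.exp ((Real.log W.D.c : ℂ) * W.D.lam * s +
      (Real.log W.D.c : ℂ) * (1 / 6 - 2 * W.D.m - 1))) := Gr.exp_affine _ _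
  have h2 : Gr (fun s => (Complex.Gamma ((W.D.lam : ℂ) * s + 1 / 6))⁻¹) := Gr.inv_Gamma.comp_affine _ _
  convert h1.mul h2 using 1
  funext s
  unfold Dat.E Dat.zz
  congr 2
  ring

lemma M_gr : Gr W.M := by
  have h3 : Gr (fun s => W.D.Λ ((W.D.lam : ℂ) * s + 1 / 6)) := (Gr.of W.D.hΛg).comp_affine _ _
  exact W.E_gr.mul ((W.dd_gr.mul h3).sub (Gr.const (W.D.kk : ℂ)))

/-- `(s - 1) ^ r * ζ ^ r * H ^ e`, where `e + k = r m` -/
noncomputable def G (r e k : ℕ) (s : ℂ) : ℂ := W.M s ^ e * W.D.dd s ^ k * W.V s ^ r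

/-- `ζ ^ r * H ^ e`, where `e + k = r m` -/
noncomputable def F (r e k : ℕ) (s : ℂ) : ℂ := W.G r e k s / (s - 1) ^ r

variable (r e k : ℕ)

lemma G_diff : Differentiable ℂ (W.G r e k) := by
  unfold G
  exact ((W.M_diff.pow e).mul ((dd_diff W.D).pow k)).mul (W.hd.pow r)

lemma G_gr : Gr (W.G r e k) := ((Gr_pow W.M_gr e).mul (Gr_pow W.dd_gr k)).mul (Gr_pow W.hg r)

lemma G_growth : ∃ A C : ℝ, 0 < A ∧ ∀ s : ℂ, ‖W.G r e k s‖ ≤ C * Real.exp (‖s‖ ^ A) := by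
  obtain ⟨C, hC, h⟩ := W.G_gr r e k
  obtain ⟨K, hK⟩ := growth_aux C
  refine ⟨3, Real.exp K, by norm_num, fun s => (h s).trans ?_⟩
  calc Real.exp (C * (1 + ‖s‖) ^ 2) ≤ Real.exp (‖s‖ ^ 3 + K) := Real.exp_le_exp.2 (hK _ (norm_nonneg _))
    _ = Real.exp K * Real.exp (‖s‖ ^ (3 : ℝ)) := by
        rw [Real.exp_add, mul_comm]
        congr 2
        rw [← Real.rpow_natCast]
        norm_num

lemma F_conj (s : ℂ) : W.F r e k (starRingEnd ℂ s) = starRingEnd ℂ (W.F r e k s) := by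
  unfold F G
  rw [W.M_conj, W.hc, W.D.dd_conj]
  simp only [map_div₀, map_mul, map_pow, map_sub, map_one]

lemma F_series (hk : e + k = r * W.m) {s : ℂ} (hs : 1 < s.re) :
    W.F r e k s = riemannZeta s ^ r * LSeries (ff W.D.m W.D.β) s ^ e := by
  have hs1 : s ≠ 1 := by
    intro h
    rw [h] at hs
    simp at hs
  have hs2 : s - 1 ≠ 0 := sub_ne_zero.2 hs1
  have hdd : W.D.dd s ≠ 0 := W.D.dd_ne (by linarith)
  rw [← W.D.H_series (by linarith [W.D.kap_lt]), W.H_eq hdd]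
  have hz : riemannZeta s = W.D.dd s ^ W.m * W.V s / (s - 1) := by
    rw [← W.hV, W.D.hZ s hs1]
    field_simp
  rw [hz]
  unfold F G
  rw [div_pow, div_pow, mul_pow, ← pow_mul, mul_comm W.m r, ← hk, pow_add]
  field_simp

/-- the symmetric function with the zeros removed -/
noncomputable def X (s : ℂ) : ℂ := Complex.Gammaℝ s * W.V s / (s - 1)

lemma X_eq {s : ℂ} (hs0 : s ≠ 0) (hs1 : s ≠ 1) (hg : Complex.Gammaℝ s ≠ 0) (hd : W.D.dd s ≠ 0) :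
    W.X s = completedRiemannZeta s / W.D.dd s ^ W.m := by
  have h1 := riemannZeta_def_of_ne_zero hs0
  have h2 := W.D.hZ s hs1
  rw [W.hV s] at h2
  have h3 : s - 1 ≠ 0 := sub_ne_zero.2 hs1
  have hd' : W.D.dd s ^ W.m ≠ 0 := pow_ne_zero _ hd
  have h4 : W.V s = (s - 1) * riemannZeta s / W.D.dd s ^ W.m := by
    rw [← h2]; field_simp
  unfold X
  rw [h4, h1]
  field_simp

lemma X_cont {s : ℂ} (hs1 : s ≠ 1) (h : ∀ n : ℕ, (1 / 2 : ℂ) * s ≠ -(n : ℂ)) : ContinuousAt W.X s := by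
  unfold X
  have h1 := Dat.gr_cont h
  have h2 := W.hd.continuous.continuousAt (x := s)
  exact (h1.mul h2).div (by fun_prop) (sub_ne_zero.2 hs1)

lemma X_one_sub {s : ℂ} (hs0 : s ≠ 0) (hs1 : s ≠ 1) (h1 : ∀ n : ℕ, (1 / 2 : ℂ) * s ≠ -(n : ℂ))
    (h2 : ∀ n : ℕ, (1 / 2 : ℂ) * (1 - s) ≠ -(n : ℂ)) : W.X (1 - s) = W.X s := by
  have hc1 : ContinuousAt W.X s := W.X_cont hs1 h1
  have hs0' : 1 - s ≠ 1 := by
    intro h; apply hs0; linear_combination -h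
  have hsub : ContinuousAt (fun z : ℂ => 1 - z) s := by fun_prop
  have hc2 : ContinuousAt (fun z => W.X (1 - z)) s :=
    ContinuousAt.comp (g := W.X) (W.X_cont hs0' h2) hsub
  have t1 : Tendsto W.X (𝓝[≠] s) (𝓝 (W.X s)) := hc1.tendsto.mono_left nhdsWithin_le_nhds
  have t2 : Tendsto (fun z => W.X (1 - z)) (𝓝[≠] s) (𝓝 (W.X (1 - s))) := hc2.tendsto.mono_left nhdsWithin_le_nhds
  refine tendsto_nhds_unique_of_eventuallyEq t2 t1 ?_
  have e1 : ∀ᶠ z in 𝓝[≠] s, Complex.Gammaℝ z ≠ 0 := (Dat.half_open h1).filter_mono nhdsWithin_le_nhds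
  have e2 : ∀ᶠ z in 𝓝[≠] s, Complex.Gammaℝ (1 - z) ≠ 0 :=
    (hsub.eventually (Dat.half_open h2)).filter_mono nhdsWithin_le_nhds
  have e3 : ∀ᶠ z in 𝓝[≠] s, z ≠ 0 := nhdsWithin_le_nhds (isOpen_ne.mem_nhds hs0)
  have e4 : ∀ᶠ z in 𝓝[≠] s, z ≠ 1 := nhdsWithin_le_nhds (isOpen_ne.mem_nhds hs1)
  filter_upwards [e1, e2, e3, e4, W.D.dd_eventually s] with z z1 z2 z3 z4 z5
  have z3' : 1 - z ≠ 1 := by intro h; apply z3; linear_combination -h
  have z4' : 1 - z ≠ 0 := by intro h; apply z4; linear_combination -h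
  rw [W.X_eq z4' z3' z2 (by rwa [W.D.dd_one_sub]), W.X_eq z3 z4 z1 z5, completedRiemannZeta_one_sub,
    W.D.dd_one_sub]

/-- conductor -/
noncomputable def Q : ℝ := Real.exp (-(r * (1 / 2 * Real.log Real.pi) + e * (W.D.lam * Real.log W.D.c)))

lemma Q_pos : 0 < W.Q r e := Real.exp_pos _

lemma Q_pow (s : ℂ) : ((W.Q r e : ℝ) : ℂ) ^ s =
    Complex.exp (-((1 / 2 : ℂ) * Real.log Real.pi) * s) ^ r *
      Complex.exp (-(W.D.lam * Real.log W.D.c) * s) ^ e := by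
  unfold Q
  rw [pow_eq_exp (Real.exp_pos _), Real.log_exp, ← Complex.exp_nat_mul, ← Complex.exp_nat_mul,
    ← Complex.exp_add]
  congr 1
  push_cast
  ring

lemma M_completed {s : ℂ} (h2 : ∀ n : ℕ, (W.D.lam : ℂ) * s + 1 / 6 ≠ -(n : ℂ)) :
    W.M s * Complex.exp (-(W.D.lam * Real.log W.D.c) * s) * Complex.Gamma ((W.D.lam : ℂ) * s + 1 / 6) =
      Complex.exp ((Real.log W.D.c : ℂ) * (1 / 6 - 2 * W.D.m - 1)) * W.L s := by
  have hG := Complex.Gamma_ne_zero h2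
  unfold M Dat.E
  have h1 : W.D.zz s = (W.D.lam : ℂ) * s + 1 / 6 := rfl
  have h4 : Complex.exp ((Real.log W.D.c : ℂ) * ((W.D.lam : ℂ) * s + 1 / 6 - 2 * W.D.m - 1)) =
      Complex.exp ((Real.log W.D.c : ℂ) * (1 / 6 - 2 * W.D.m - 1)) *
        Complex.exp ((W.D.lam * Real.log W.D.c) * s) := by
    rw [← Complex.exp_add]; congr 1; ring
  have h5 : Complex.exp ((W.D.lam * Real.log W.D.c) * s) *
      Complex.exp (-(W.D.lam * Real.log W.D.c) * s) = 1 := by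
    rw [← Complex.exp_add]
    have : (W.D.lam * Real.log W.D.c : ℂ) * s + -(W.D.lam * Real.log W.D.c) * s = 0 := by ring
    rw [this, Complex.exp_zero]
  rw [h1, h4]
  have h6 := inv_mul_cancel₀ hG
  generalize Complex.Gamma ((W.D.lam : ℂ) * s + 1 / 6) = g at *
  generalize Complex.exp ((W.D.lam * Real.log W.D.c : ℂ) * s) = e1 at *
  generalize Complex.exp (-(W.D.lam * Real.log W.D.c : ℂ) * s) = e2 at *
  generalize Complex.exp ((Real.log W.D.c : ℂ) * (1 / 6 - 2 * W.D.m - 1)) = e3 at *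
  calc e3 * e1 * g⁻¹ * W.L s * e2 * g = e3 * (e1 * e2) * (g⁻¹ * g) * W.L s := by ring
    _ = _ := by rw [h5, h6]; ring

lemma V_completed (s : ℂ) :
    W.V s * Complex.exp (-((1 / 2 : ℂ) * Real.log Real.pi) * s) * Complex.Gamma (1 / 2 * s) / (s - 1) =
      W.X s := by
  unfold X
  rw [Complex.Gammaℝ_def]
  have hpi : (Real.pi : ℂ) ^ (-s / 2) = Complex.exp (-((1 / 2 : ℂ) * Real.log Real.pi) * s) := by
    rw [pow_eq_exp Real.pi_pos]
    congr 1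
    ring
  have hs2 : s / 2 = 1 / 2 * s := by ring
  rw [hpi, hs2]
  ring

lemma completed {s : ℂ} (h2 : ∀ n : ℕ, (W.D.lam : ℂ) * s + 1 / 6 ≠ -(n : ℂ)) :
    W.F r e k s * ((W.Q r e : ℝ) : ℂ) ^ s *
      (Complex.Gamma (1 / 2 * s) ^ r * Complex.Gamma ((W.D.lam : ℂ) * s + 1 / 6) ^ e) =
      W.X s ^ r * (Complex.exp ((Real.log W.D.c : ℂ) * (1 / 6 - 2 * W.D.m - 1)) * W.L s) ^ e *
        W.D.dd s ^ k := by
  rw [← W.M_completed h2, ← W.V_completed s, W.Q_pow]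
  unfold F G
  rw [div_pow, mul_pow, mul_pow, mul_pow, mul_pow]
  ring

theorem FE {s : ℂ} (hs0 : s ≠ 0) (hs1 : s ≠ 1) (h1 : ∀ n : ℕ, (1 / 2 : ℂ) * s ≠ -(n : ℂ))
    (h2 : ∀ n : ℕ, (W.D.lam : ℂ) * s + 1 / 6 ≠ -(n : ℂ))
    (h3 : ∀ n : ℕ, (1 / 2 : ℂ) * (1 - s) ≠ -(n : ℂ))
    (h4 : ∀ n : ℕ, (W.D.lam : ℂ) * (1 - s) + 1 / 6 ≠ -(n : ℂ)) :
    W.F r e k s * ((W.Q r e : ℝ) : ℂ) ^ s *
      (Complex.Gamma (1 / 2 * s) ^ r * Complex.Gamma ((W.D.lam : ℂ) * s + 1 / 6) ^ e) =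
    W.F r e k (1 - s) * ((W.Q r e : ℝ) : ℂ) ^ (1 - s) *
      (Complex.Gamma (1 / 2 * (1 - s)) ^ r * Complex.Gamma ((W.D.lam : ℂ) * (1 - s) + 1 / 6) ^ e) := by
  rw [W.completed r e k h2, W.completed r e k h4, W.X_one_sub hs0 hs1 h1 h3, W.D.dd_one_sub, W.L_one_sub]

theorem FE' {s : ℂ} (hs0 : s ≠ 0) (hs1 : s ≠ 1) (h1 : ∀ n : ℕ, (1 / 2 : ℂ) * s ≠ -(n : ℂ))
    (h2 : ∀ n : ℕ, (W.D.lam : ℂ) * s + 1 / 6 ≠ -(n : ℂ))
    (h3 : ∀ n : ℕ, (1 / 2 : ℂ) * (1 - starRingEnd ℂ s) ≠ -(n : ℂ))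
    (h4 : ∀ n : ℕ, (W.D.lam : ℂ) * (1 - starRingEnd ℂ s) + 1 / 6 ≠ -(n : ℂ)) :
    W.F r e k s * ((W.Q r e : ℝ) : ℂ) ^ s *
      (Complex.Gamma (1 / 2 * s) ^ r * Complex.Gamma ((W.D.lam : ℂ) * s + 1 / 6) ^ e) =
    starRingEnd ℂ (W.F r e k (1 - starRingEnd ℂ s) * ((W.Q r e : ℝ) : ℂ) ^ (1 - starRingEnd ℂ s) *
      (Complex.Gamma (1 / 2 * (1 - starRingEnd ℂ s)) ^ r *
        Complex.Gamma ((W.D.lam : ℂ) * (1 - starRingEnd ℂ s) + 1 / 6) ^ e)) := by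
  have c1 : (1 : ℂ) - starRingEnd ℂ s = starRingEnd ℂ (1 - s) := by rw [map_sub, map_one]
  have c2 : ∀ w : ℂ, (1 / 2 : ℂ) * starRingEnd ℂ w = starRingEnd ℂ (1 / 2 * w) := by
    intro w; rw [map_mul, map_div₀, map_one, Complex.conj_ofNat]
  have c3 : ∀ w : ℂ, (W.D.lam : ℂ) * starRingEnd ℂ w + 1 / 6 =
      starRingEnd ℂ ((W.D.lam : ℂ) * w + 1 / 6) := by
    intro w; rw [map_add, map_mul, map_div₀, map_one, Complex.conj_ofNat, Complex.conj_ofReal]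
  rw [c1] at h3 h4 ⊢
  have h3' : ∀ n : ℕ, (1 / 2 : ℂ) * (1 - s) ≠ -(n : ℂ) := by
    intro n hn
    apply h3 n
    rw [c2, hn, map_neg, Complex.conj_natCast]
  have h4' : ∀ n : ℕ, (W.D.lam : ℂ) * (1 - s) + 1 / 6 ≠ -(n : ℂ) := by
    intro n hn
    apply h4 n
    rw [c3, hn, map_neg, Complex.conj_natCast]
  rw [W.FE r e k hs0 hs1 h1 h2 h3' h4', W.F_conj, c2, c3, Complex.Gamma_conj, Complex.Gamma_conj]
  have c4 : ((W.Q r e : ℝ) : ℂ) ^ (starRingEnd ℂ (1 - s)) = starRingEnd ℂ (((W.Q r e : ℝ) : ℂ) ^ (1 - s)) := by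
    rw [pow_eq_exp (W.Q_pos r e), pow_eq_exp (W.Q_pos r e), ← Complex.exp_conj, map_mul, Complex.conj_ofReal]
  rw [c4]
  simp only [map_mul, map_pow, Complex.conj_conj]

lemma M_one_ne : W.M 1 ≠ 0 := by
  have hd : W.D.dd 1 ≠ 0 := W.D.dd_ne (by norm_num)
  have h1 := W.H_eq hd
  rw [W.D.H_series (by simpa using W.D.kap_lt)] at h1
  intro h
  rw [h, zero_div] at h1
  exact W.D.H_one_ne h1

lemma V_one_ne : W.V 1 ≠ 0 := by
  have h1 := W.hV 1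
  rw [W.D.hZ1] at h1
  intro h
  rw [h, mul_zero] at h1
  exact one_ne_zero h1

theorem order_one : meromorphicOrderAt (W.F r e k) 1 = ((-(r : ℤ) : ℤ) : WithTop ℤ) := by
  have hG := (W.G_diff r e k).analyticAt 1
  have hm : MeromorphicAt (W.F r e k) 1 := by
    unfold F
    exact hG.meromorphicAt.div (by fun_prop)
  rw [meromorphicOrderAt_eq_int_iff hm]
  refine ⟨W.G r e k, hG, ?_, ?_⟩
  · unfold G
    exact mul_ne_zero (mul_ne_zero (pow_ne_zero _ W.M_one_ne) (pow_ne_zero _ (W.D.dd_ne (by norm_num))))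
      (pow_ne_zero _ W.V_one_ne)
  · filter_upwards with z
    unfold F
    rw [zpow_neg, zpow_natCast, smul_eq_mul, div_eq_mul_inv, mul_comm]

theorem order_rho : analyticOrderAt (W.F r e k) W.D.rho = k := by
  have hr1 : W.D.rho - 1 ≠ 0 := sub_ne_zero.2 W.D.rho_ne_one
  have hden : ∀ᶠ z in 𝓝 W.D.rho, z ≠ 1 := isOpen_ne.mem_nhds W.D.rho_ne_one
  have ha : AnalyticAt ℂ (W.F r e k) W.D.rho := by
    unfold F
    exact ((W.G_diff r e k).analyticAt _).div (by fun_prop) (pow_ne_zero _ hr1)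
  rw [ha.analyticOrderAt_eq_natCast]
  refine ⟨fun s => W.M s ^ e * (s - starRingEnd ℂ W.D.rho) ^ k * W.V s ^ r / (s - 1) ^ r, ?_, ?_, ?_⟩
  · have h1 := (W.M_diff.pow e).analyticAt W.D.rho
    have h2 := (W.hd.pow r).analyticAt W.D.rho
    have h3 : AnalyticAt ℂ (fun s => (s - starRingEnd ℂ W.D.rho) ^ k) W.D.rho := by fun_prop
    exact ((h1.mul h3).mul h2).div (by fun_prop) (pow_ne_zero _ hr1)
  · simp only
    exact div_ne_zero (mul_ne_zero (mul_ne_zero (pow_ne_zero _ W.M_rho_ne)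
      (pow_ne_zero _ (rho_sub_conj W.D))) (pow_ne_zero _ W.hne)) (pow_ne_zero _ hr1)
  · filter_upwards with z
    unfold F G
    rw [dd_fac, mul_pow, smul_eq_mul]
    ring

lemma conj_rho_ne_one : starRingEnd ℂ W.D.rho ≠ 1 := by
  intro h
  apply W.D.rho_ne_one
  have := congrArg (starRingEnd ℂ) h
  rwa [Complex.conj_conj, map_one] at this

theorem order_conj_rho : analyticOrderAt (W.F r e k) (starRingEnd ℂ W.D.rho) = k := by
  have hr1 : starRingEnd ℂ W.D.rho - 1 ≠ 0 := sub_ne_zero.2 W.conj_rho_ne_one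
  have ha : AnalyticAt ℂ (W.F r e k) (starRingEnd ℂ W.D.rho) := by
    unfold F
    exact ((W.G_diff r e k).analyticAt _).div (by fun_prop) (pow_ne_zero _ hr1)
  rw [ha.analyticOrderAt_eq_natCast]
  refine ⟨fun s => W.M s ^ e * (s - W.D.rho) ^ k * W.V s ^ r / (s - 1) ^ r, ?_, ?_, ?_⟩
  · have h1 := (W.M_diff.pow e).analyticAt (starRingEnd ℂ W.D.rho)
    have h2 := (W.hd.pow r).analyticAt (starRingEnd ℂ W.D.rho)
    have h3 : AnalyticAt ℂ (fun s => (s - W.D.rho) ^ k) (starRingEnd ℂ W.D.rho) := by fun_prop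
    exact ((h1.mul h3).mul h2).div (by fun_prop) (pow_ne_zero _ hr1)
  · simp only
    refine div_ne_zero (mul_ne_zero (mul_ne_zero (pow_ne_zero _ ?_)
      (pow_ne_zero _ ?_)) (pow_ne_zero _ ?_)) (pow_ne_zero _ hr1)
    · rw [W.M_conj]
      simpa using W.M_rho_ne
    · intro h
      apply rho_sub_conj W.D
      rw [← neg_sub, h, neg_zero]
    · rw [W.hc]
      simpa using W.hne
  · filter_upwards with z
    unfold F G
    rw [dd_fac, mul_pow, smul_eq_mul]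
    ring

end VDat

lemma Z_gr (D : Dat) : Gr D.Z := Gr.of D.hZg

lemma Z_order (D : Dat) : analyticOrderAt D.Z D.rho = analyticOrderAt riemannZeta D.rho := by
  have h1 : D.Z =ᶠ[𝓝 D.rho] (fun s => s - 1) * riemannZeta := by
    filter_upwards [isOpen_ne.mem_nhds D.rho_ne_one] with s hs
    rw [D.hZ s hs]
    rfl
  have hζ : AnalyticAt ℂ riemannZeta D.rho := by
    have ho : IsOpen {z : ℂ | z ≠ 1} := isOpen_ne
    exact DifferentiableOn.analyticAt (s := {z : ℂ | z ≠ 1})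
      (fun z hz => (differentiableAt_riemannZeta hz).differentiableWithinAt)
      (ho.mem_nhds D.rho_ne_one)
  rw [analyticOrderAt_congr h1, analyticOrderAt_mul (by fun_prop) hζ]
  have h2 : analyticOrderAt (fun s : ℂ => s - 1) D.rho = 0 := by
    rw [AnalyticAt.analyticOrderAt_eq_zero (by fun_prop)]
    exact sub_ne_zero.2 D.rho_ne_one
  rw [h2, zero_add]

/-- the order of vanishing of `ζ` at `ρ` is finite -/
lemma Z_order_ne_top (D : Dat) : analyticOrderAt D.Z D.rho ≠ ⊤ := by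
  intro h
  rw [analyticOrderAt_eq_top] at h
  have h2 := D.Z_eventually
  have h3 : ∀ᶠ z in 𝓝[≠] D.rho, D.Z z = 0 := h.filter_mono nhdsWithin_le_nhds
  obtain ⟨z, hz1, hz2⟩ := (h2.and h3).exists
  exact hz1 hz2

theorem exists_VDat (D : Dat) : ∃ W : VDat, W.D = D ∧ analyticOrderAt riemannZeta D.rho = W.m := by
  obtain ⟨m, hm⟩ := ENat.ne_top_iff_exists.1 (Z_order_ne_top D)
  obtain ⟨V, v1, v2, v3, v4, v5⟩ := exists_V D m D.Z D.hZd (Z_gr D) D.Z_conj hm.symm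
  exact ⟨⟨D, m, V, v1, v2, v3, v4, v5⟩, rfl, by rw [← Z_order, ← hm]⟩

end Pool.Agent.Y861.SelZ
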