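import Pool.Agent.H902R3.PZ.W3

set_option autoImplicit false

/-!
# Euler products: closure under multiplication
-/

namespace Pool.Agent.Y861.SelZ

open Finset Pool.Agent.H469R10.HO Pool.Agent.H902R3.I469 Pool.Agent.H902R3.PZ
open scoped ArithmeticFunction.vonMangoldt

/-- coefficients `a` of a Dirichlet series and coefficients `b` of its logarithm -/
structure Eul (a b : ℕ → ℂ) : Prop where
  sum : ∀ s : ℂ, 1 < s.re → LSeriesSummable a s
  ram : ∀ ε : ℝ, 0 < ε → ∃ C : ℝ, ∀ n : ℕ, 1 ≤ n → ‖a n‖ ≤ C * (n : ℝ) ^ ε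
  one : a 1 = 1
  supp : ∀ n, ¬ IsPrimePow n → b n = 0
  bd : ∃ C : ℝ, ∀ n : ℕ, ‖b n‖ ≤ C
  exp : ∀ s : ℂ, 1 < s.re → LSeriesSummable b s ∧ Complex.exp (LSeries b s) = LSeries a s

theorem ram_mul {a₁ a₂ : ℕ → ℂ}
    (h₁ : ∀ ε : ℝ, 0 < ε → ∃ C : ℝ, ∀ n : ℕ, 1 ≤ n → ‖a₁ n‖ ≤ C * (n : ℝ) ^ ε)
    (h₂ : ∀ ε : ℝ, 0 < ε → ∃ C : ℝ, ∀ n : ℕ, 1 ≤ n → ‖a₂ n‖ ≤ C * (n : ℝ) ^ ε)
    (ε : ℝ) (hε : 0 < ε) :
    ∃ C : ℝ, ∀ n : ℕ, 1 ≤ n → ‖LSeries.convolution a₁ a₂ n‖ ≤ C * (n : ℝ) ^ ε := by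
  obtain ⟨C₁, hC₁⟩ := h₁ (ε / 2) (by linarith)
  obtain ⟨C₂, hC₂⟩ := h₂ (ε / 2) (by linarith)
  obtain ⟨C, hC0, hC⟩ := Pool.Agent.H510R2.divisor_bound (ε / 2) (by linarith)
  have hC₁0 : 0 ≤ C₁ := by
    have := hC₁ 1 le_rfl
    simp at this
    exact (norm_nonneg _).trans this
  have hC₂0 : 0 ≤ C₂ := by
    have := hC₂ 1 le_rfl
    simp at this
    exact (norm_nonneg _).trans this
  refine ⟨C₁ * C₂ * C, fun n hn => ?_⟩
  have hn0 : (0 : ℝ) < n := by exact_mod_cast hn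
  rw [LSeries.convolution_def]
  refine (norm_sum_le _ _).trans ?_
  calc ∑ p ∈ n.divisorsAntidiagonal, ‖a₁ p.1 * a₂ p.2‖
      ≤ ∑ _p ∈ n.divisorsAntidiagonal, C₁ * C₂ * (n : ℝ) ^ (ε / 2) := by
        apply Finset.sum_le_sum
        intro p hp
        rw [Nat.mem_divisorsAntidiagonal] at hp
        have hp1 : 1 ≤ p.1 := by
          rcases Nat.eq_zero_or_pos p.1 with h | h
          · rw [h, zero_mul] at hp; omega
          · exact h
        have hp2 : 1 ≤ p.2 := by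
          rcases Nat.eq_zero_or_pos p.2 with h | h
          · rw [h, mul_zero] at hp; omega
          · exact h
        rw [norm_mul]
        have e : (n : ℝ) ^ (ε / 2) = (p.1 : ℝ) ^ (ε / 2) * (p.2 : ℝ) ^ (ε / 2) := by
          rw [← Real.mul_rpow (Nat.cast_nonneg _) (Nat.cast_nonneg _), ← Nat.cast_mul, hp.1]
        rw [e]
        calc ‖a₁ p.1‖ * ‖a₂ p.2‖ ≤ (C₁ * (p.1 : ℝ) ^ (ε / 2)) * (C₂ * (p.2 : ℝ) ^ (ε / 2)) :=
              mul_le_mul (hC₁ _ hp1) (hC₂ _ hp2) (norm_nonneg _) (by positivity)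
          _ = _ := by ring
    _ = C₁ * C₂ * (n : ℝ) ^ (ε / 2) * n.divisors.card := by
        rw [Finset.sum_const, nsmul_eq_mul]
        rw [show n.divisorsAntidiagonal.card = n.divisors.card by
          rw [← Nat.map_div_right_divisors, Finset.card_map]]
        ring
    _ ≤ C₁ * C₂ * (n : ℝ) ^ (ε / 2) * (C * (n : ℝ) ^ (ε / 2)) :=
        mul_le_mul_of_nonneg_left (hC n hn) (by positivity)
    _ = C₁ * C₂ * C * ((n : ℝ) ^ (ε / 2) * (n : ℝ) ^ (ε / 2)) := by ring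
    _ = _ := by rw [← Real.rpow_add hn0, add_halves]

theorem Eul.mul {a₁ a₂ b₁ b₂ : ℕ → ℂ} (h₁ : Eul a₁ b₁) (h₂ : Eul a₂ b₂) :
    Eul (LSeries.convolution a₁ a₂) (b₁ + b₂) where
  sum := fun s hs => (h₁.sum s hs).convolution (h₂.sum s hs)
  ram := ram_mul h₁.ram h₂.ram
  one := by
    rw [LSeries.convolution_def]
    simp [h₁.one, h₂.one]
  supp := fun n hn => by
    rw [Pi.add_apply, h₁.supp n hn, h₂.supp n hn, add_zero]
  bd := by
    obtain ⟨C₁, hC₁⟩ := h₁.bd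
    obtain ⟨C₂, hC₂⟩ := h₂.bd
    exact ⟨C₁ + C₂, fun n => (norm_add_le _ _).trans (add_le_add (hC₁ n) (hC₂ n))⟩
  exp := fun s hs => by
    obtain ⟨s₁, e₁⟩ := h₁.exp s hs
    obtain ⟨s₂, e₂⟩ := h₂.exp s hs
    refine ⟨s₁.add s₂, ?_⟩
    rw [LSeries_add s₁ s₂, Complex.exp_add, e₁, e₂, LSeries_convolution' (h₁.sum s hs) (h₂.sum s hs)]

theorem eul_one : Eul (1 : ℕ → ℂ) (fun n : ℕ => (Λ n : ℂ) / (Real.log n : ℂ)) where
  sum := fun _ hs => summable_one hs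
  ram := fun ε hε => ⟨1, fun n hn => by
    simp only [Pi.one_apply, norm_one, one_mul]
    exact Real.one_le_rpow (by exact_mod_cast hn) hε.le⟩
  one := rfl
  supp := fun n hn => by
    rw [ArithmeticFunction.vonMangoldt_eq_zero_iff.2 hn]
    simp
  bd := ⟨1, norm_L_le⟩
  exp := fun s hs => by
    have h2 : LSeriesSummable (fun n : ℕ => (Λ n : ℂ) / (Real.log n : ℂ)) s :=
      LSeriesSummable_of_bounded_of_one_lt_re (m := 1) (fun n _ => norm_L_le n) hs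
    refine ⟨h2, ?_⟩
    rw [LSeries_one_eq_riemannZeta hs]
    exact riemannZeta_eq_exp_LSeries hs

theorem eul_ff {m : ℕ} {β : ℕ → ℝ}
    (hβ : ∀ p : ℕ, p.Prime → |β p| ≤ (p : ℝ) ^ (-(1 / 2 + m / lamOf m))) :
    Eul (ff m β) (bH m β) where
  sum := fun _ hs => summable_term hβ hs
  ram := fun ε hε => ⟨1, fun n hn => by
    rw [one_mul]
    exact (norm_ff_le hβ n).trans (Real.one_le_rpow (by exact_mod_cast hn) hε.le)⟩
  one := ff_one
  supp := fun n hn => by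
    unfold bH
    rw [if_neg hn]
  bd := ⟨1, norm_bH_le hβ⟩
  exp := fun s hs => ⟨summable_bH hβ hs, exp_bH hβ hs⟩

/-- the Euler product data of `ζ ^ r * H ^ e` -/
theorem exists_eul {m : ℕ} {β : ℕ → ℝ}
    (hβ : ∀ p : ℕ, p.Prime → |β p| ≤ (p : ℝ) ^ (-(1 / 2 + m / lamOf m))) (r e : ℕ) (hr : 1 ≤ r) :
    ∃ a b : ℕ → ℂ, Eul a b ∧ ∀ s : ℂ, 1 < s.re →
      LSeries a s = riemannZeta s ^ r * LSeries (ff m β) s ^ e := by
  induction e with
  | zero =>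
    induction r, hr using Nat.le_induction with
    | base =>
      exact ⟨_, _, eul_one, fun s hs => by rw [LSeries_one_eq_riemannZeta hs]; simp⟩
    | succ r hr ih =>
      obtain ⟨a, b, h, h2⟩ := ih
      refine ⟨_, _, h.mul eul_one, fun s hs => ?_⟩
      rw [LSeries_convolution' (h.sum s hs) (eul_one.sum s hs), h2 s hs,
        LSeries_one_eq_riemannZeta hs]
      ring
  | succ e ih =>
    obtain ⟨a, b, h, h2⟩ := ih
    refine ⟨_, _, h.mul (eul_ff hβ), fun s hs => ?_⟩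
    rw [LSeries_convolution' (h.sum s hs) ((eul_ff hβ).sum s hs), h2 s hs]
    ring

end Pool.Agent.Y861.SelZ
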